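import Pool.Agent.helper58.FI4E.Spec

/-!
# Project fi4e (MP_baa4d7_al), row `fi4e:UNS`: blocks which are not stable
-/

set_option autoImplicit false

namespace Pool.Agent.FI4E

open Pool.Agent.helper58.DC Pool.Agent.DI Pool.Agent.GR Pool.Agent.OB Pool.Agent.DR Pool.Agent.FI Pool.Agent.FI3 Pool.Agent.FI4 Pool.Agent.FI4I

theorem UNS (hBAA : BAA_stmt) (hQEI : QEI_stmt) (hBLE : BLE_stmt) (hBCL : BCL_stmt) (hIM : IM_stmt) : UNS_stmt := by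
  intro p M hM G _ _ α H hH
  have hirr : ∀ ψ ∈ IrrOn H, funMap α ψ ∈ IrrOn H := by
    intro ψ hψ
    have h1 := (hBAA G M p α ⊥ ⊥ H ψ ψ ψ).2.2.1.1 hψ
    rwa [hH] at h1
  have key : ∀ S : Set (G → ℂ), BC M H S → (∀ ψ ∈ S, funMap α ψ ∉ S) → tS p H S α = 0 := by
    intro S hS h
    unfold tS
    refine finsum_mem_eq_zero_of_forall_eq_zero fun ψ hψ => ?_
    exact ((hQEI p M hM G H S hS).2.1 ψ hψ (funMap α ψ) (hirr ψ (hS.sub hψ)) (h ψ hψ)).2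
  refine ⟨?_, ?_⟩
  · intro N hHN hN φ hφ hns
    refine key _ (hBLE p M hM G N H hHN φ).1 ?_
    rintro ψ ⟨hψ1, hψ2⟩ ⟨-, h2⟩
    have h3 := (hBAA G M p α ⊥ ⊥ N ψ φ φ).2.2.2.1.1 hψ2
    rw [hN] at h3
    exact hns (h3.symm.trans h2)
  · intro χ hns
    refine key _ (hBCL G M χ H) ?_
    rintro ψ ⟨hψ1, hψ2⟩ ⟨-, h2⟩
    have h3 := ((hIM G M ψ χ χ).2.2.2 α).2 hψ2
    have h4 := (hIM G M (funMap α ψ) (funMap α χ) χ).2.1 h3
    exact hns ((hIM G M (funMap α χ) (funMap α ψ) χ).2.2.1 h4 h2)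

end Pool.Agent.FI4E
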