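import Pool.Agent.helper70.FI4E.SpecK

/-!
# Project fi4e (MP_baa4d7_al), row `fi4e:EOQ`: the sum for the quotient
-/

set_option autoImplicit false

namespace Pool.Agent.FI4E

open Pool.Agent.helper58.DC Pool.Agent.DI Pool.Agent.GR Pool.Agent.OB Pool.Agent.DR Pool.Agent.FI Pool.Agent.FI3 Pool.Agent.FI4

/-- The characters `χ'` of the quotient with `χ' ∘ π` in the block of `χ`. -/
def EOQ_X {G Gb : Type} [Group G] [Group Gb] (M : Ideal (integralClosure ℤ ℂ)) (π : G →* Gb)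
    (χ : G → ℂ) : Set (Gb → ℂ) :=
  {χ' : Gb → ℂ | χ' ∈ Irr Gb ∧ Induces M (fun g => χ' (π g)) χ}

/-- The traces agree. -/
theorem EOQ_tr (hELE : ELE_stmt) (hKIN : KIN_stmt) (hKBL : KBL_stmt) (hBCL : BCL_stmt) (p : ℕ)
    (M : Ideal (integralClosure ℤ ℂ)) (hM : Setup p M) (G Gb : Type) [Group G] [Finite G]
    [Group Gb] [Finite Gb] (R : Subgroup G) (π : G →* Gb) (hQ : Qn p R π) (χ : G → ℂ)
    (Cb : Finset (Subgroup Gb)) (hCb : NCh p ⊤ ⊥ Cb) (β : MulAut G) (βb : MulAut Gb) (hQa : Qa π β βb)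
    (ham : am βb (nrm Cb) = nrm Cb) :
    tL p M χ ((nrm Cb).comap π) β = tS p (nrm Cb) (BX M (EOQ_X M π χ) (nrm Cb)) βb := by
  have h1 : dn π (nrm Cb) (Blk M χ ((nrm Cb).comap π)) = BX M (EOQ_X M π χ) (nrm Cb) := by
    ext f
    constructor
    · rintro ⟨h2, h3⟩
      exact ⟨h2, ((hKBL p M hM G Gb R π hQ).2 χ Cb hCb f h2).1 h3.2⟩
    · rintro ⟨h2, h3⟩
      exact ⟨h2, (hKIN p G Gb R π hQ).2.1 (nrm Cb) f h2,
        ((hKBL p M hM G Gb R π hQ).2 χ Cb hCb f h2).2 h3⟩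
  unfold tL
  rw [← hELE p M hM G Gb R π hQ (nrm Cb) _ (hBCL G M χ ((nrm Cb).comap π)) β βb hQa ham, h1]

/-- The sum over the fibres. -/
theorem EOQ_fib (p : ℕ) (G Gb : Type) [Group G] [Finite G] [Group Gb] [Finite Gb] (R : Subgroup G)
    (π : G →* Gb) (hQ : Qn p R π) (F : Gb → ℂ) :
    ∑ᶠ g : G, F (π g) = (Nat.card R : ℂ) * ∑ᶠ gb : Gb, F gb := by
  classical
  have := Fintype.ofFinite G
  have := Fintype.ofFinite Gb
  rw [finsum_eq_sum_of_fintype, finsum_eq_sum_of_fintype, Finset.mul_sum,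
    ← Finset.sum_fiberwise Finset.univ (fun g : G => π g)]
  refine Finset.sum_congr rfl fun gb _ => ?_
  have h1 : ∑ g ∈ Finset.univ.filter (fun g : G => π g = gb), F (π g) =
      ∑ g ∈ Finset.univ.filter (fun g : G => π g = gb), F gb := by
    refine Finset.sum_congr rfl fun g hg => ?_
    rw [(Finset.mem_filter.1 hg).2]
  rw [h1, Finset.sum_const, nsmul_eq_mul]
  have h2 : (Finset.univ.filter (fun g : G => π g = gb)).card = (Finset.univ.filter (fun g : G => π g = 1)).card :=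
    MonoidHom.card_fiber_eq_of_mem_range π (MonoidHom.mem_range.2 (hQ.sur gb)) (MonoidHom.mem_range.2 ⟨1, map_one π⟩)
  have h3 : (Finset.univ.filter (fun g : G => π g = 1)).card = Nat.card R := by
    rw [Nat.card_eq_fintype_card, Fintype.card_subtype]
    refine congrArg Finset.card (Finset.filter_congr fun g _ => ?_)
    exact hQ.ker g
  rw [h2, h3]

theorem EOQ (hKG1 : KG1_stmt) (hKCH : KCH_stmt) (hELE : ELE_stmt) (hEQA : EQA_stmt) (hEAU : EAU_stmt) (hKIN : KIN_stmt)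
    (hKBL : KBL_stmt) (hBCL : BCL_stmt) : EOQ_stmt := by
  intro p M hM G Gb _ _ _ _ R π hQ χ α αb hQa
  classical
  have : Fact p.Prime := ⟨hM.pr⟩
  obtain ⟨hbij, hch⟩ := hKCH p G Gb R π hQ
  change Om p M χ R α = (Nat.card R : ℂ) * OmX p M (EOQ_X M π χ) αb
  unfold Om OmX
  rw [← EOQ_fib p G Gb R π hQ]
  refine finsum_congr fun g => ?_
  obtain ⟨-, hq, -⟩ := (hEQA p G Gb R π hQ α).2 αb hQa
  have hQb : Qa π (al α g) (al αb (π g)) := hq g
  obtain ⟨-, -, -, hfx, -⟩ := (hEQA p G Gb R π hQ (al α g)).2 (al αb (π g)) hQb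
  have hbij' : Set.BijOn (fun Cb : Finset (Subgroup Gb) => Cb.image (Subgroup.comap π))
      {Cb | NCh p ⊤ ⊥ Cb ∧ FxC (al αb (π g)) Cb} {C | NCh p ⊤ R C ∧ FxC (al α g) C} := by
    refine ⟨?_, ?_, ?_⟩
    · rintro Cb ⟨h1, h2⟩
      exact ⟨hbij.mapsTo h1, (hfx Cb).2 h2⟩
    · rintro Cb ⟨h1, -⟩ Cb' ⟨h1', -⟩ h
      exact hbij.injOn h1 h1' h
    · rintro C ⟨h1, h2⟩
      obtain ⟨Cb, h3, h4⟩ := hbij.surjOn h1
      refine ⟨Cb, ⟨h3, ?_⟩, h4⟩
      rw [← h4] at h2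
      exact (hfx Cb).1 h2
  symm
  refine finsum_mem_eq_of_bijOn _ hbij' ?_
  rintro Cb ⟨h1, h2⟩
  have h5 := hch Cb
  have h6 := EOQ_tr hELE hKIN hKBL hBCL p M hM G Gb R π hQ χ Cb h1 (al α g) (al αb (π g)) hQb
    ((hEAU p M Gb (al αb (π g))).1 Cb h2)
  change _ = (-1 : ℂ) ^ ((Cb.image (Subgroup.comap π)).card + 1) *
    tL p M χ (nrm (Cb.image (Subgroup.comap π))) (al α g)
  rw [h5.1, ← h5.2, h6]

end Pool.Agent.FI4E
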